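import Pool.Agent.N115.IM.Stm

/-!
Multiple factors of polynomials over extensions, and the dimension of the families of polynomials
with multiple factors.
-/

set_option autoImplicit false

open Polynomial

namespace Pool.Agent.N115.IM

/-- multiple factors over an extension come from multiple factors -/
theorem exists_down {K K' : Type} [Field K] [Field K'] [CharZero K] [Algebra K K'] {H : K[X]}
    (hH : H ≠ 0) {m : ℕ} (hm : 1 ≤ m) {p : K'[X]} (hp : Irreducible p)
    (hd : p ^ m ∣ H.map (algebraMap K K')) : ∃ p0 : K[X], Irreducible p0 ∧ p0 ^ m ∣ H := by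
  classical
  obtain ⟨f, hf, u, hu⟩ := UniqueFactorizationMonoid.exists_prime_factors H hH
  have h1 : p ∣ H.map (algebraMap K K') := (dvd_pow_self p (by omega)).trans hd
  have h2 : p ∣ (f.map (Polynomial.map (algebraMap K K'))).prod := by
    rw [← hu, Polynomial.map_mul] at h1
    have h3 : IsUnit ((u : K[X]).map (algebraMap K K')) :=
      (u.isUnit).map (Polynomial.mapRingHom (algebraMap K K'))
    rw [h3.dvd_mul_right] at h1
    rwa [← Polynomial.coe_mapRingHom, map_multiset_prod] at h1
  obtain ⟨p0, hp0, hpp⟩ := Prime.exists_mem_multiset_map_dvd hp.prime h2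
  have hirr : Irreducible p0 := (hf p0 hp0).irreducible
  have hsep : (p0.map (algebraMap K K')).Separable := hirr.separable.map
  have hfin : FiniteMultiplicity p0 H :=
    FiniteMultiplicity.of_not_isUnit hirr.not_isUnit hH
  obtain ⟨H'', hH'', hnd⟩ := hfin.exists_eq_pow_mul_and_not_dvd
  set e := multiplicity p0 H with he
  refine ⟨p0, hirr, ?_⟩
  suffices hme : m ≤ e by
    rw [hH'']
    exact (pow_dvd_pow p0 hme).trans (dvd_mul_right _ _)
  obtain ⟨s, hs⟩ := hpp
  have hcop : IsCoprime p s := by
    rw [hs] at hsep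
    exact hsep.isCoprime
  have hcop2 : IsCoprime p (H''.map (algebraMap K K')) := by
    have h3 : IsCoprime p0 H'' := hirr.coprime_iff_not_dvd.2 hnd
    have h4 : IsCoprime (p0.map (algebraMap K K')) (H''.map (algebraMap K K')) :=
      h3.map (Polynomial.mapRingHom (algebraMap K K'))
    exact IsCoprime.of_isCoprime_of_dvd_left h4 ⟨s, hs⟩
  rw [hH'', Polynomial.map_mul, Polynomial.map_pow, hs, mul_pow] at hd
  have h5 : p ^ m ∣ p ^ e * s ^ e := (hcop2.pow_left).dvd_of_dvd_mul_right hd
  have h6 : p ^ m ∣ p ^ e := (hcop.pow).dvd_of_dvd_mul_right h5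
  exact (pow_dvd_pow_iff hp.ne_zero hp.not_isUnit).1 h6

/-- algebraicity over the field of the ratios of the coefficients, over extensions -/
theorem alg_up {k K K' : Type} [Field k] [Field K] [Field K'] [Algebra k K] [Algebra k K']
    [Algebra K K'] [IsScalarTower k K K'] [Algebra.IsAlgebraic K K'] {H : K[X]}
    (halg : Algebra.IsAlgebraic (Algebra.adjoin k {x | ∃ i j, x = H.coeff i / H.coeff j}) K) :
    Algebra.IsAlgebraic (Algebra.adjoin k {x | ∃ i j,
      x = (H.map (algebraMap K K')).coeff i / (H.map (algebraMap K K')).coeff j}) K' := by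
  set A := Algebra.adjoin k {x | ∃ i j, x = H.coeff i / H.coeff j} with hA
  set A' := Algebra.adjoin k {x | ∃ i j,
      x = (H.map (algebraMap K K')).coeff i / (H.map (algebraMap K K')).coeff j} with hA'
  have h1 : ∀ x ∈ A, algebraMap K K' x ∈ A' := by
    have h2 : A ≤ A'.comap (IsScalarTower.toAlgHom k K K') := by
      rw [hA, Algebra.adjoin_le_iff]
      rintro _ ⟨i, j, rfl⟩
      change algebraMap K K' _ ∈ A'
      rw [map_div₀]
      apply Algebra.subset_adjoin
      exact ⟨i, j, by rw [Polynomial.coeff_map, Polynomial.coeff_map]⟩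
    exact fun x hx => h2 hx
  let φ : A →+* A' :=
    { toFun := fun x => ⟨algebraMap K K' x, h1 x x.2⟩
      map_one' := Subtype.ext (map_one _)
      map_mul' := fun x y => Subtype.ext (map_mul _ _ _)
      map_zero' := Subtype.ext (map_zero _)
      map_add' := fun x y => Subtype.ext (map_add _ _ _) }
  let _ : Algebra A A' := φ.toAlgebra
  have t1 : IsScalarTower A A' K' := IsScalarTower.of_algebraMap_eq fun x => rfl
  have h2 : Algebra.IsAlgebraic A K' := Algebra.IsAlgebraic.trans A K K'
  exact Algebra.IsAlgebraic.extendScalars (R := A) (S := A') (A := K') (by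
    intro x y hxy
    have h3 := congrArg Subtype.val hxy
    exact Subtype.ext ((algebraMap K K').injective h3))

/-- the transcendence degree of a field which is algebraic over a finite set -/
theorem trdeg_le_card {k K : Type} [Field k] [Field K] [Algebra k K] (T : Finset K)
    (h : Algebra.IsAlgebraic (IntermediateField.adjoin k (T : Set K)) K) :
    Algebra.trdeg k K ≤ T.card := by
  classical
  have h0 : Algebra.IsAlgebraic (Algebra.adjoin k (T : Set K)) K :=
    IntermediateField.isAlgebraic_adjoin_iff_top.1 h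
  obtain ⟨S, hS, hSb⟩ := exists_isTranscendenceBasis_subset (R := k) (A := K) (T : Set K)
  have hcard := hSb.cardinalMk_eq_trdeg
  rw [← hcard]
  have h2 : Cardinal.mk S ≤ Cardinal.mk (T : Set K) := Cardinal.mk_le_mk_of_subset hS
  refine h2.trans ?_
  simp

/-- a family of polynomials of degree at most `n` with an `m`-fold factor of degree at least `d` has
dimension at most `n - (m - 1) d` -/
theorem trdeg_of_dvd {k K : Type} [Field k] [Field K] [Algebra k K] {H q : K[X]} (hH : H ≠ 0)
    {n m d w : ℕ} (hm : 1 ≤ m) (hdeg : H.natDegree ≤ n) (hq : d ≤ q.natDegree) (hqH : q ^ m ∣ H)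
    (htr : Algebra.trdeg k K = w)
    (halg : Algebra.IsAlgebraic (Algebra.adjoin k {x | ∃ i j, x = H.coeff i / H.coeff j}) K) :
    w + (m - 1) * d ≤ n := by
  classical
  obtain ⟨H1, hH1⟩ := hqH
  have hq0 : q ≠ 0 := by
    rintro rfl
    rw [zero_pow (by omega), zero_mul] at hH1
    exact hH hH1
  have hc0 : q.leadingCoeff ≠ 0 := Polynomial.leadingCoeff_ne_zero.2 hq0
  set c := q.leadingCoeff with hc
  set p : K[X] := Polynomial.C c⁻¹ * q with hp
  set H' : K[X] := Polynomial.C (c ^ m) * H1 with hH'
  have hmon : p.Monic := by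
    rw [hp]
    exact Polynomial.monic_C_mul_of_mul_leadingCoeff_eq_one (inv_mul_cancel₀ hc0)
  have hpd : p.natDegree = q.natDegree := by
    rw [hp, Polynomial.natDegree_C_mul (inv_ne_zero hc0)]
  have hHH : H = p ^ m * H' := by
    rw [hp, hH', mul_pow, ← Polynomial.C_pow, hH1]
    have h1 : Polynomial.C (c⁻¹ ^ m) * q ^ m * (Polynomial.C (c ^ m) * H1) =
        Polynomial.C (c⁻¹ ^ m) * Polynomial.C (c ^ m) * (q ^ m * H1) := by ring
    rw [h1, ← Polynomial.C_mul, ← mul_pow, inv_mul_cancel₀ hc0, one_pow, Polynomial.C_1, one_mul]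
  have hH'0 : H' ≠ 0 := by
    intro h
    rw [h, mul_zero] at hHH
    exact hH hHH
  have hdeg' : m * p.natDegree + H'.natDegree ≤ n := by
    have h1 := congrArg Polynomial.natDegree hHH
    rw [Polynomial.natDegree_mul (pow_ne_zero _ hmon.ne_zero) hH'0, Polynomial.natDegree_pow] at h1
    omega
  set e := H'.natDegree with he
  have hl0 : H'.coeff e ≠ 0 := by
    rw [he]
    exact Polynomial.leadingCoeff_ne_zero.2 hH'0
  -- the generators
  let T : Finset K := ((Finset.range p.natDegree).image fun i => p.coeff i) ∪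
    ((Finset.range e).image fun i => H'.coeff i / H'.coeff e)
  have hTc : T.card ≤ p.natDegree + e := by
    refine (Finset.card_union_le _ _).trans ?_
    refine Nat.add_le_add (Finset.card_image_le.trans ?_) (Finset.card_image_le.trans ?_)
    · rw [Finset.card_range]
    · rw [Finset.card_range]
  set E := IntermediateField.adjoin k (T : Set K) with hE
  have hpE : ∀ i, p.coeff i ∈ E := by
    intro i
    rcases lt_trichotomy i p.natDegree with h | h | h
    · apply IntermediateField.subset_adjoin
      rw [Finset.mem_coe, Finset.mem_union]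
      exact Or.inl (Finset.mem_image.2 ⟨i, Finset.mem_range.2 h, rfl⟩)
    · rw [h, hmon.coeff_natDegree]
      exact E.one_mem
    · rw [Polynomial.coeff_eq_zero_of_natDegree_lt h]
      exact E.zero_mem
  have hH'E : ∀ i, H'.coeff i / H'.coeff e ∈ E := by
    intro i
    rcases lt_trichotomy i e with h | h | h
    · apply IntermediateField.subset_adjoin
      rw [Finset.mem_coe, Finset.mem_union]
      exact Or.inr (Finset.mem_image.2 ⟨i, Finset.mem_range.2 h, rfl⟩)
    · rw [h, div_self hl0]
      exact E.one_mem
    · rw [Polynomial.coeff_eq_zero_of_natDegree_lt h, zero_div]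
      exact E.zero_mem
  have hpmE : ∀ i, (p ^ m).coeff i ∈ E := by
    intro i
    let p' : Polynomial E := ∑ i ∈ Finset.range (p.natDegree + 1),
      Polynomial.monomial i (⟨p.coeff i, hpE i⟩ : E)
    have h1 : p'.map (algebraMap E K) = p := by
      rw [Polynomial.map_sum]
      conv_rhs => rw [p.as_sum_range]
      refine Finset.sum_congr rfl fun i _ => ?_
      rw [Polynomial.map_monomial]
      rfl
    rw [← h1, ← Polynomial.map_pow, Polynomial.coeff_map]
    exact SetLike.coe_mem _
  have hHE : ∀ i, H.coeff i / H'.coeff e ∈ E := by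
    intro i
    rw [hHH, Polynomial.coeff_mul, Finset.sum_div]
    refine E.sum_mem fun x _ => ?_
    rw [mul_div_assoc]
    exact E.mul_mem (hpmE _) (hH'E _)
  have hle : IntermediateField.adjoin k {x | ∃ i j, x = H.coeff i / H.coeff j} ≤ E := by
    rw [IntermediateField.adjoin_le_iff]
    rintro _ ⟨i, j, rfl⟩
    have e1 : H.coeff i / H.coeff j = (H.coeff i / H'.coeff e) / (H.coeff j / H'.coeff e) := by
      rw [div_div_div_cancel_right₀ hl0]
    rw [e1]
    exact E.div_mem (hHE i) (hHE j)
  have halg1 : Algebra.IsAlgebraic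
      (IntermediateField.adjoin k {x | ∃ i j, x = H.coeff i / H.coeff j}) K :=
    IntermediateField.isAlgebraic_adjoin_iff_top.2 halg
  have halg2 : Algebra.IsAlgebraic E K := by
    let _ : Algebra (IntermediateField.adjoin k {x | ∃ i j, x = H.coeff i / H.coeff j}) E :=
      (IntermediateField.inclusion hle).toRingHom.toAlgebra
    have : IsScalarTower (IntermediateField.adjoin k {x | ∃ i j, x = H.coeff i / H.coeff j}) E K :=
      IsScalarTower.of_algebraMap_eq fun x => rfl
    exact Algebra.IsAlgebraic.extendScalars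
      (R := IntermediateField.adjoin k {x | ∃ i j, x = H.coeff i / H.coeff j})
      (IntermediateField.inclusion hle).toRingHom.injective
  have h1 := trdeg_le_card T halg2
  rw [htr] at h1
  have h2 : w ≤ p.natDegree + e := by
    have h3 : w ≤ T.card := by exact_mod_cast h1
    omega
  have h3 : (m - 1) * d ≤ (m - 1) * p.natDegree := Nat.mul_le_mul_left _ (by omega)
  obtain ⟨m', rfl⟩ : ∃ m', m = m' + 1 := ⟨m - 1, by omega⟩
  rw [Nat.add_sub_cancel] at h3 ⊢
  have h4 : (m' + 1) * p.natDegree = m' * p.natDegree + p.natDegree := by ring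
  omega

end Pool.Agent.N115.IM
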