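import Pool.Agent.N115.IM.Img
import Pool.Agent.N115.IM.Down
import Pool.Agent.N157.IM.Rad
import Pool.Agent.N813.IM.Images
import Pool.Agent.N895.IM.Core
import Pool.Agent.TH466.QG.Top
import Pool.Agent.Y190.BV.Spec

/-!
The images of bounded degree of the closed subvarieties of the varieties of the vectors whose
`m`-th powers are the values of a polynomial at given constants.
-/

set_option autoImplicit false

open FF Pool.Agent.W603.LV Polynomial

namespace Pool.Agent.N115.IM

open Pool.Agent.W602.GT (GeneralType Psef KodGe Ruled coords essFinite kod_of_general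
  psef_of_kodGe not_psef_of)
open Pool.Agent.W619.PQ (IsUniruled)
open Pool.Agent.Y190.BV (alg_coeffs two_nonzero)

theorem all_images : Images := Pool.Agent.N813.IM.images
  (Pool.Agent.N157.IM.rad_images (Pool.Agent.N895.IM.core_images image_lemma))

variable {k : Type} [Field k] [CharZero k] [IsAlgClosed k] {N n m r w : ℕ}

/-- the correspondences, when there are no `m`-fold factors -/
theorem corr_of_free (hm : 2 ≤ m) (hr : 1 ≤ r) (hw : 0 < w)
    (hN : 4 * n + (n + 2 * r - 1) ^ 2 < 2 * (N + 1)) {a : Fin (N + 1) → k}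
    (ha : Function.Injective a) {K K' L : Type} [Field K] [Field K'] [Field L] [Algebra k K]
    [Algebra k K'] [Algebra k L] [Algebra K K'] [Algebra L K'] [IsScalarTower k K K']
    [IsScalarTower k L K'] [FiniteDimensional K K'] [FiniteDimensional L K']
    [hess : Algebra.EssFiniteType k K] (htr : Algebra.trdeg k K = w)
    (hfr : Module.finrank L K' ≤ r) {H : K[X]} (hH0 : H ≠ 0) (hdeg : H.natDegree ≤ n)
    (halg : Algebra.IsAlgebraic (Algebra.adjoin k {x | ∃ i j, x = H.coeff i / H.coeff j}) K)
    {y : Fin (N + 1) → K} (hy : ∀ i, y i ^ m = H.eval (algebraMap k K (a i)))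
    (hfree : ∀ p : K[X], Irreducible p → ¬ p ^ m ∣ H) : GeneralType k L w := by
  have hchK : CharZero K := charZero_of_injective_algebraMap (algebraMap k K).injective
  have hess2 : Algebra.EssFiniteType K K' := inferInstance
  have hess' : Algebra.EssFiniteType k K' := Algebra.EssFiniteType.comp k K K'
  have htr' : Algebra.trdeg k K' = w := by
    have h5 := trdeg_add_eq k K (A := K')
    rw [trdeg_eq_zero (R := K) (A := K'), add_zero] at h5
    rw [← h5, htr]
  refine all_images k K' L w r n m N hw hr htr' hfr hm hN a ha (H.map (algebraMap K K'))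
    ((Polynomial.map_ne_zero_iff (algebraMap K K').injective).2 hH0)
    (Polynomial.natDegree_map_le.trans hdeg) (alg_up halg) (fun i => algebraMap K K' (y i))
    (fun i => ?_) fun p hp hd => ?_
  · rw [← map_pow, hy, IsScalarTower.algebraMap_apply k K K', Polynomial.eval_map_algebraMap,
      Polynomial.aeval_algebraMap_apply, Polynomial.coe_aeval_eq_eval]
  · obtain ⟨p0, h1, h2⟩ := exists_down hH0 (by omega) hp hd
    exact hfree p0 h1 h2

/-- **The dichotomy.** -/
theorem corr_or_ruled (hm : 2 ≤ m) (hr : 1 ≤ r) (hw : 0 < w)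
    (hN : 4 * n + (n + 2 * r - 1) ^ 2 < 2 * (N + 1)) {a : Fin (N + 1) → k}
    (ha : Function.Injective a) {K : Type} [Field K] [Algebra k K] (htr : Algebra.trdeg k K = w)
    {y : Fin (N + 1) → K} (hy0 : y ≠ 0) (hgen : coords k y = ⊤) {H : K[X]}
    (hdeg : H.natDegree ≤ n) (hy : ∀ i, y i ^ m = H.eval (algebraMap k K (a i)))
    (hfac : ∀ q : K[X], 2 ≤ q.natDegree → ¬ q ^ m ∣ H) :
    (∀ (K' L : Type) [Field K'] [Field L] [Algebra k K'] [Algebra k L] [Algebra K K']
      [Algebra L K'] [IsScalarTower k K K'] [IsScalarTower k L K'] [FiniteDimensional K K']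
      [FiniteDimensional L K'], Module.finrank L K' ≤ r → GeneralType k L w) ∨ Ruled k K := by
  classical
  have hess : Algebra.EssFiniteType k K := essFinite hgen
  have hn : n ≤ N := by
    have h1 : n + 1 ≤ n + 2 * r - 1 := by omega
    have h2 : (n + 1) ^ 2 ≤ (n + 2 * r - 1) ^ 2 := Nat.pow_le_pow_left h1 2
    nlinarith
  have hev : ∀ i, H.eval (algebraMap k K (a i)) = y i ^ m := fun i => (hy i).symm
  have hH : H ≠ 0 := by
    intro h0
    apply hy0
    funext i
    have h1 := hev i
    rw [h0, Polynomial.eval_zero] at h1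
    exact eq_zero_of_pow_eq_zero h1.symm
  have halgH := alg_coeffs (by omega : 1 ≤ m) hgen hH hev
  by_cases hfree : ∀ p : K[X], Irreducible p → ¬ p ^ m ∣ H
  · left
    intro K' L _ _ _ _ _ _ _ _ _ _ hfr
    exact corr_of_free hm hr hw hN ha htr hfr hH hdeg halgH hy hfree
  push Not at hfree
  obtain ⟨p, hp, hpH⟩ := hfree
  have hp1 : p.natDegree = 1 := by
    have h2 := hp.natDegree_pos
    by_contra hne
    exact hfac p (by omega) hpH
  obtain ⟨t, ht⟩ : ∃ t : K, p.eval t = 0 := by
    have h1 := Polynomial.exists_root_of_degree_eq_one (p := p)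
      ((Polynomial.degree_eq_iff_natDegree_eq_of_pos one_pos).2 hp1)
    obtain ⟨t, ht⟩ := h1
    exact ⟨t, ht⟩
  obtain ⟨H', hH'⟩ : (Polynomial.X - Polynomial.C t) ^ m ∣ H :=
    (pow_dvd_pow_of_dvd (Polynomial.dvd_iff_isRoot.2 ht) m).trans hpH
  have hH'0 : H' ≠ 0 := by
    rintro rfl
    rw [mul_zero] at hH'
    exact hH hH'
  have hdeg1 : H'.natDegree + m ≤ n := by
    have h4 := congrArg Polynomial.natDegree hH'
    rw [Polynomial.natDegree_mul (pow_ne_zero _ (Polynomial.X_sub_C_ne_zero t)) hH'0,
      Polynomial.natDegree_pow, Polynomial.natDegree_X_sub_C, mul_one] at h4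
    omega
  have hfree' : ∀ p' : K[X], Irreducible p' → ¬ p' ^ m ∣ H' := by
    intro p' hp' hd
    refine hfac ((Polynomial.X - Polynomial.C t) * p') ?_ ?_
    · rw [Polynomial.natDegree_mul (Polynomial.X_sub_C_ne_zero t) hp'.ne_zero,
        Polynomial.natDegree_X_sub_C]
      have := hp'.natDegree_pos
      omega
    · rw [hH', mul_pow]
      exact mul_dvd_mul_left _ hd
  have hev' : ∀ i, (algebraMap k K (a i) - t) ^ m * H'.eval (algebraMap k K (a i)) = y i ^ m := by
    intro i
    rw [← hev i, hH', Polynomial.eval_mul, Polynomial.eval_pow, Polynomial.eval_sub,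
      Polynomial.eval_X, Polynomial.eval_C]
  obtain ⟨j0, hj0⟩ : ∃ j0, H'.coeff j0 ≠ 0 := by
    by_contra hcon
    push Not at hcon
    exact hH'0 (Polynomial.ext fun j => by rw [hcon j, Polynomial.coeff_zero])
  set S' : Set K := {x | ∃ i j, x = H'.coeff i / H'.coeff j} with hS'
  by_cases hA : Algebra.IsAlgebraic (Algebra.adjoin k S') K
  · -- the field is algebraic over the ratios of the coefficients
    left
    intro K' L _ _ _ _ _ _ _ _ _ _ hfr
    obtain ⟨N', rfl⟩ : ∃ N', N = N' + 1 := ⟨N - 1, by omega⟩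
    obtain ⟨i0, hi0⟩ : ∃ i0 : Fin (N' + 1 + 1), ∀ i, i ≠ i0 → algebraMap k K (a i) ≠ t := by
      by_cases h : ∃ i0, algebraMap k K (a i0) = t
      · obtain ⟨i0, hi0⟩ := h
        refine ⟨i0, fun i hi h1 => hi (ha ((algebraMap k K).injective ?_))⟩
        rw [h1, hi0]
      · push Not at h
        exact ⟨0, fun i _ => h i⟩
    refine corr_of_free (n := n - m) (m := m) (N := N') (r := r) hm hr hw ?_
      (a := fun j => a (i0.succAbove j)) (fun x y hxy => Fin.succAbove_right_injective (ha hxy))
      htr hfr hH'0 (by omega) hA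
      (y := fun j => y (i0.succAbove j) / (algebraMap k K (a (i0.succAbove j)) - t))
      (fun j => ?_) hfree'
    · have h1 : n - m + 2 * r - 1 ≤ n + 2 * r - 1 := by omega
      have h2 : (n - m + 2 * r - 1) ^ 2 ≤ (n + 2 * r - 1) ^ 2 := Nat.pow_le_pow_left h1 2
      omega
    · have h1 : algebraMap k K (a (i0.succAbove j)) - t ≠ 0 :=
        sub_ne_zero.2 (hi0 _ (Fin.succAbove_ne i0 j))
      rw [div_pow, ← hev', mul_div_assoc, mul_div_cancel₀ _ (pow_ne_zero _ h1)]
  right
  set E : IntermediateField k K := IntermediateField.adjoin k S' with hE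
  set F1 : IntermediateField E K := algebraicClosure E K with hF1
  have hEF : ∀ x ∈ E, x ∈ F1 := fun x hx => F1.algebraMap_mem (⟨x, hx⟩ : E)
  -- `t` is transcendental
  have hB : Transcendental E t := by
    intro htalg
    apply hA
    have htF : t ∈ F1 := mem_algebraicClosure_iff.2 htalg
    have hpowF : ∀ u, ((Polynomial.X - Polynomial.C t) ^ m).coeff u ∈ F1 := by
      intro u
      have h1 : (Polynomial.X - Polynomial.C t) ^ m =
          ((Polynomial.X - Polynomial.C (⟨t, htF⟩ : F1)) ^ m).map (algebraMap F1 K) := by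
        rw [Polynomial.map_pow, Polynomial.map_sub, Polynomial.map_X, Polynomial.map_C]
        rfl
      rw [h1, Polynomial.coeff_map]
      exact SetLike.coe_mem _
    have hcF : ∀ i, H.coeff i / H'.coeff j0 ∈ F1 := by
      intro i
      rw [hH', Polynomial.coeff_mul, Finset.sum_div]
      refine F1.sum_mem fun x _ => ?_
      rw [mul_div_assoc]
      exact F1.mul_mem (hpowF _) (hEF _ (IntermediateField.subset_adjoin k _ ⟨_, _, rfl⟩))
    have hle : Algebra.adjoin k {x | ∃ i j, x = H.coeff i / H.coeff j} ≤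
        (F1.restrictScalars k).toSubalgebra := by
      rw [Algebra.adjoin_le_iff]
      rintro _ ⟨i, j, rfl⟩
      have e : H.coeff i / H.coeff j = (H.coeff i / H'.coeff j0) / (H.coeff j / H'.coeff j0) := by
        rw [div_div_div_cancel_right₀ hj0]
      rw [e]
      exact F1.div_mem (hcF i) (hcF j)
    have h2 : Algebra.IsAlgebraic F1 K := by
      let _ : Algebra (Algebra.adjoin k {x | ∃ i j, x = H.coeff i / H.coeff j}) F1 :=
        (Subalgebra.inclusion hle).toRingHom.toAlgebra
      have : IsScalarTower (Algebra.adjoin k {x | ∃ i j, x = H.coeff i / H.coeff j}) F1 K :=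
        IsScalarTower.of_algebraMap_eq fun x => rfl
      exact Algebra.IsAlgebraic.extendScalars
        (R := Algebra.adjoin k {x | ∃ i j, x = H.coeff i / H.coeff j})
        (Subalgebra.inclusion_injective hle)
    have h3 : Algebra.IsAlgebraic E F1 := algebraicClosure.isAlgebraic E K
    have h4 : Algebra.IsAlgebraic E K := Algebra.IsAlgebraic.trans E F1 K
    exact IntermediateField.isAlgebraic_adjoin_iff_top.1 h4
  have hat : ∀ i, algebraMap k K (a i) - t ≠ 0 := by
    intro i h
    apply hB
    have h1 : t = algebraMap E K (algebraMap k E (a i)) := by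
      rw [← IsScalarTower.algebraMap_apply k E K]
      exact (sub_eq_zero.1 h).symm
    rw [h1]
    exact isAlgebraic_algebraMap _
  set z : Fin (N + 1) → K := fun i => y i / (algebraMap k K (a i) - t) with hz
  have hyz : ∀ i, y i = (algebraMap k K (a i) - t) * z i := by
    intro i
    simp only [hz]
    have := hat i
    field_simp
  have hzm : ∀ i, H'.eval (algebraMap k K (a i)) = z i ^ m := by
    intro i
    simp only [hz]
    rw [div_pow, ← hev', mul_div_assoc, mul_div_cancel₀ _ (pow_ne_zero _ (hat i))]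
  have hHE : ∀ i, H'.eval (algebraMap k K (a i)) / H'.coeff j0 ∈ E := by
    intro i
    rw [Polynomial.eval_eq_sum_range, Finset.sum_div]
    refine E.sum_mem fun j _ => ?_
    have e : H'.coeff j * algebraMap k K (a i) ^ j / H'.coeff j0 =
        (H'.coeff j / H'.coeff j0) * algebraMap k K (a i ^ j) := by
      rw [map_pow]; ring
    rw [e]
    exact E.mul_mem (IntermediateField.subset_adjoin k _ ⟨j, j0, rfl⟩) (E.algebraMap_mem _)
  have hzF : ∀ i j, z j ≠ 0 → z i / z j ∈ F1 := by
    intro i j hj
    apply mem_algebraicClosure_iff.2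
    have h3 : (z i / z j) ^ m ∈ E := by
      have e : (z i / z j) ^ m = (H'.eval (algebraMap k K (a i)) / H'.coeff j0) /
          (H'.eval (algebraMap k K (a j)) / H'.coeff j0) := by
        rw [hzm i, hzm j, div_pow, div_div_div_cancel_right₀ hj0]
      rw [e]
      exact E.div_mem (hHE i) (hHE j)
    have h4 : IsAlgebraic E ((z i / z j) ^ m) := isAlgebraic_algebraMap (⟨_, h3⟩ : E)
    exact IsAlgebraic.of_pow (by omega) h4
  have hle : coords k z ≤ F1.restrictScalars k := by
    unfold coords
    rw [IntermediateField.adjoin_le_iff]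
    rintro _ ⟨i, j, hj, rfl⟩
    exact hzF i j hj
  refine ⟨coords k z, t, ?_, ?_⟩
  · intro htalg
    apply hB
    have h1 : IsAlgebraic F1 t := by
      let _ : Algebra (coords k z) F1 := (IntermediateField.inclusion hle).toRingHom.toAlgebra
      have : IsScalarTower (coords k z) F1 K := IsScalarTower.of_algebraMap_eq fun x => rfl
      exact htalg.extendScalars (IntermediateField.inclusion hle).toRingHom.injective
    have h3 : Algebra.IsAlgebraic E F1 := algebraicClosure.isAlgebraic E K
    exact h1.restrictScalars E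
  · have h1 : (⊤ : IntermediateField k K) ≤
        (IntermediateField.adjoin (coords k z) {t}).restrictScalars k := by
      rw [← hgen]
      conv_lhs => unfold coords
      rw [IntermediateField.adjoin_le_iff]
      rintro _ ⟨i, j, hj, rfl⟩
      have hzj : z j ≠ 0 := by
        intro h0
        rw [hyz j, h0, mul_zero] at hj
        exact hj rfl
      have ht : t ∈ IntermediateField.adjoin (coords k z) {t} :=
        IntermediateField.mem_adjoin_simple_self _ t
      have hc : ∀ c : k, algebraMap k K c ∈ IntermediateField.adjoin (coords k z) {t} := by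
        intro c
        have := (IntermediateField.adjoin (coords k z) {t}).algebraMap_mem
          (algebraMap k (coords k z) c)
        rwa [← IsScalarTower.algebraMap_apply k (coords k z) K] at this
      have hr : z i / z j ∈ IntermediateField.adjoin (coords k z) {t} :=
        (IntermediateField.adjoin (coords k z) {t}).algebraMap_mem
          (⟨z i / z j, IntermediateField.subset_adjoin k _ ⟨i, j, hzj, rfl⟩⟩ : coords k z)
      have e : y i / y j = (algebraMap k K (a i) - t) / (algebraMap k K (a j) - t) *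
          (z i / z j) := by
        rw [hyz i, hyz j, div_mul_div_comm]
      rw [e]
      exact mul_mem (div_mem (sub_mem (hc _) ht) (sub_mem (hc _) ht)) hr
    rw [eq_top_iff]
    intro x _
    exact h1 (IntermediateField.mem_top (x := x))

/-- **Varieties dominated with bounded degree.** -/
theorem below_tfae (hm : 2 ≤ m) (hr : 1 ≤ r) (hw : 0 < w)
    (hN : 4 * n + (n + 2 * r - 1) ^ 2 < 2 * (N + 1)) {a : Fin (N + 1) → k}
    (ha : Function.Injective a) {K : Type} [Field K] [Algebra k K] (htr : Algebra.trdeg k K = w)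
    {y : Fin (N + 1) → K} (hy0 : y ≠ 0) (hgen : coords k y = ⊤) {H : K[X]}
    (hdeg : H.natDegree ≤ n) (hy : ∀ i, y i ^ m = H.eval (algebraMap k K (a i)))
    (hfac : ∀ q : K[X], 2 ≤ q.natDegree → ¬ q ^ m ∣ H)
    {L : Type} [Field L] [Algebra k L] [Algebra L K] [IsScalarTower k L K]
    [FiniteDimensional L K] (hfr : Module.finrank L K ≤ r) :
    [¬ KodGe k L w (fun _ => False) 0, ¬ Psef k L w (fun _ => False), IsUniruled k L w,
      ¬ GeneralType k L w, Ruled k K].TFAE := by
  have hess : Algebra.EssFiniteType k K := essFinite hgen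
  have hRu : Ruled k K → IsUniruled k L w := fun h =>
    (Pool.Agent.TH466.QG.neg_below htr h).1
  have hUn : IsUniruled k L w → ¬ Psef k L w (fun _ => False) := by
    intro h hps
    have hL : Algebra.EssFiniteType k L := Pool.Agent.TH466.QG.ess_below (K := K)
    have hLdim : Algebra.trdeg k L = w := by
      rw [← htr, ← trdeg_add_eq k L (A := K)]
      have h1 : Algebra.trdeg L K = 0 := by
        rw [trdeg_eq_zero_iff]
        infer_instance
      rw [h1, add_zero]
    exact (Pool.Agent.W619.Y.uniruled_neg w hLdim h).1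
      ((Pool.Agent.TH466.QG.psef_iff w).1 hps)
  have hPs : ¬ Psef k L w (fun _ => False) → ¬ KodGe k L w (fun _ => False) 0 :=
    fun h h1 => h (psef_of_kodGe h1)
  have hKo : ¬ KodGe k L w (fun _ => False) 0 → ¬ GeneralType k L w :=
    fun h h1 => h (kod_of_general h1)
  have hGe : ¬ GeneralType k L w → Ruled k K := by
    intro h
    rcases corr_or_ruled hm hr hw hN ha htr hy0 hgen hdeg hy hfac with h1 | h1
    · exact absurd (h1 K L hfr) h
    · exact h1
  tfae_have 5 → 3 := hRu
  tfae_have 3 → 2 := hUn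
  tfae_have 2 → 1 := hPs
  tfae_have 1 → 4 := hKo
  tfae_have 4 → 5 := hGe
  tfae_finish

/-- **The correspondences.** -/
theorem corr_general (hm : 2 ≤ m) (hr : 1 ≤ r) (hw : 0 < w)
    (hN : 4 * n + (n + 2 * r - 1) ^ 2 < 2 * (N + 1)) {a : Fin (N + 1) → k}
    (ha : Function.Injective a) {K : Type} [Field K] [Algebra k K] (htr : Algebra.trdeg k K = w)
    {y : Fin (N + 1) → K} (hy0 : y ≠ 0) (hgen : coords k y = ⊤) {H : K[X]}
    (hdeg : H.natDegree ≤ n) (hy : ∀ i, y i ^ m = H.eval (algebraMap k K (a i)))
    (hfac : ∀ q : K[X], 2 ≤ q.natDegree → ¬ q ^ m ∣ H) (hnr : ¬ Ruled k K)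
    {K' L : Type} [Field K'] [Field L] [Algebra k K'] [Algebra k L] [Algebra K K']
    [Algebra L K'] [IsScalarTower k K K'] [IsScalarTower k L K'] [FiniteDimensional K K']
    [FiniteDimensional L K'] (hfr : Module.finrank L K' ≤ r) : GeneralType k L w := by
  rcases corr_or_ruled hm hr hw hN ha htr hy0 hgen hdeg hy hfac with h1 | h1
  · exact h1 K' L hfr
  · exact absurd h1 hnr

/-- there are no multiple factors of high degree in small codimension -/
theorem no_factor (hm : 2 ≤ m) {a : Fin (N + 1) → k} {K : Type} [Field K] [Algebra k K]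
    (htr : Algebra.trdeg k K = w) {y : Fin (N + 1) → K} (hy0 : y ≠ 0) (hgen : coords k y = ⊤)
    {H : K[X]} (hdeg : H.natDegree ≤ n) (hy : ∀ i, y i ^ m = H.eval (algebraMap k K (a i)))
    {d : ℕ} (hd : n < m * d ∨ n < w + (m - 1) * d) (q : K[X]) (hq : d ≤ q.natDegree) :
    ¬ q ^ m ∣ H := by
  intro hqH
  have hev : ∀ i, H.eval (algebraMap k K (a i)) = y i ^ m := fun i => (hy i).symm
  have hH : H ≠ 0 := by
    intro h0
    apply hy0
    funext i
    have h1 := hev i
    rw [h0, Polynomial.eval_zero] at h1
    exact eq_zero_of_pow_eq_zero h1.symm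
  rcases hd with h | h
  · have h1 := Polynomial.natDegree_le_of_dvd hqH hH
    rw [Polynomial.natDegree_pow] at h1
    have h2 : m * d ≤ m * q.natDegree := Nat.mul_le_mul_left m hq
    omega
  · have h1 := trdeg_of_dvd hH (by omega : 1 ≤ m) hdeg hq hqH htr
      (alg_coeffs (by omega : 1 ≤ m) hgen hH hev)
    omega

/-- the subvarieties of small codimension are not ruled -/
theorem not_ruled (hm : 2 ≤ m) (hw : 0 < w) (hN : 4 * n + (n + 1) ^ 2 < 2 * (N + 1))
    {a : Fin (N + 1) → k} (ha : Function.Injective a) {K : Type} [Field K] [Algebra k K]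
    (htr : Algebra.trdeg k K = w) {y : Fin (N + 1) → K} (hy0 : y ≠ 0) (hgen : coords k y = ⊤)
    {H : K[X]} (hdeg : H.natDegree ≤ n) (hy : ∀ i, y i ^ m = H.eval (algebraMap k K (a i)))
    (hd : n < m ∨ n < w + (m - 1)) : ¬ Ruled k K := by
  have hess : Algebra.EssFiniteType k K := essFinite hgen
  have hev : ∀ i, H.eval (algebraMap k K (a i)) = y i ^ m := fun i => (hy i).symm
  have hH : H ≠ 0 := by
    intro h0
    apply hy0
    funext i
    have h1 := hev i
    rw [h0, Polynomial.eval_zero] at h1
    exact eq_zero_of_pow_eq_zero h1.symm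
  have hfree : ∀ p : K[X], Irreducible p → ¬ p ^ m ∣ H := fun p hp =>
    no_factor hm htr hy0 hgen hdeg hy (d := 1) (by simpa using hd) p hp.natDegree_pos
  have h1 : GeneralType k K w := corr_of_free (K' := K) (L := K) (r := 1) hm le_rfl hw
    (by simpa using hN) ha htr (by simp) hH hdeg (alg_coeffs (by omega : 1 ≤ m) hgen hH hev) hy
    hfree
  exact Pool.Agent.TH466.QG.not_ruled_of_general h1

end Pool.Agent.N115.IM
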