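import Pool.Agent.Y190.BV.Rad

/-!
Images of bounded degree of the varieties of the vectors whose `m`-th powers are the values of a
polynomial at given constants: the statements of the parts.
-/

set_option autoImplicit false

open FF Pool.Agent.W603.LV Pool.Agent.W602.GT Polynomial

namespace Pool.Agent.N115.IM

/-- **Images of small degree.** Let `K = L(f)` be an extension of degree `r`, let `p P` be a bound
for the pole of `f` at `P`, and let the `M`-canonical forms `ω j` of `K` vanish along every prime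
divisor `P` to the order `2 (r - 1) M p P` at least. If their ratios contain a transcendence basis
then `L` is of general type. -/
def ImageLemma : Prop :=
  ∀ (k K L : Type) [Field k] [Field K] [Field L] [Algebra k K] [Algebra k L] [Algebra L K]
    [IsScalarTower k L K] [CharZero k] [IsAlgClosed k] [FiniteDimensional L K]
    [Algebra.EssFiniteType k K] (n M : ℕ), 0 < n → 0 < M → Algebra.trdeg k K = n →
    ∀ f : K, IntermediateField.adjoin L {f} = ⊤ →
    ∀ p : Place k K → ℤ, (∀ P, 0 ≤ p P ∧ Ge P (-(p P)) f) →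
    ∀ (ω : Fin (n + 1) → (Fin n → Derivation k K K) → K) (u : Fin n → K),
      IsTranscendenceBasis k u → (∀ j, IsPluri M (ω j)) → (∃ D, ω 0 D ≠ 0) →
      (∀ i D, ω i.succ D = ω 0 D * u i) →
      (∀ P, Divisorial n P → ∀ j D, (∀ i, DerReg P (D i)) →
        Ge P (2 * ((Module.finrank L K : ℤ) - 1) * M * p P) (ω j D)) →
      GeneralType k L n

/-- The algebraic core for images of degree at most `r`. -/
def CoreImages : Prop :=
  ∀ (k K L : Type) [Field k] [Field K] [Field L] [Algebra k K] [Algebra k L] [Algebra L K]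
    [IsScalarTower k L K] [CharZero k] [IsAlgClosed k] [FiniteDimensional L K]
    [Algebra.EssFiniteType k K] (w r : ℕ), 0 < w → 1 ≤ r → Algebra.trdeg k K = w →
    Module.finrank L K ≤ r →
    ∀ (E : Type) [Field E] [Algebra k E] [Algebra K E] [IsScalarTower k K E]
      [FiniteDimensional K E] [IsGalois K E] (F : K[X]), F.Separable →
      (F.map (algebraMap K E)).Splits → Algebra.IsAlgebraic (Algebra.adjoin k (F.rootSet E)) E →
    ∀ (q : ℕ) (a : Fin q → k), Function.Injective a → ∀ (A : ℕ) (c : Fin q → ℕ),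
      (∀ i, c i ≤ A) →
      A * (F.natDegree + (w + 2 * (r - 1)) * (F.natDegree + 1 - w)) < ∑ i, c i →
      (∀ i, F.eval (algebraMap k K (a i)) ≠ 0) →
      (∀ (P : Place k K) (j0 : ℕ), F.coeff j0 ≠ 0 →
        (∀ j, F.coeff j = 0 ∨ P.ord (F.coeff j0) ≤ P.ord (F.coeff j)) →
        ∀ i, P.ord (F.eval (algebraMap k K (a i))) = P.ord (F.coeff j0) ∨
          (A : ℤ) ≤ ((A : ℤ) - c i) *
            (P.ord (F.eval (algebraMap k K (a i))) - P.ord (F.coeff j0))) →
    ∀ (i0 : Fin q) (f : K), IntermediateField.adjoin L {f} = ⊤ →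
      (∀ (P : Place k K) (j0 : ℕ), F.coeff j0 ≠ 0 →
        (∀ j, F.coeff j = 0 ∨ P.ord (F.coeff j0) ≤ P.ord (F.coeff j)) →
        Ge P (-(P.ord (F.eval (algebraMap k K (a i0))) - P.ord (F.coeff j0))) f) →
      GeneralType k L w

/-- Polynomials whose values are `m`-th powers; `K` is generated over `L` by a linear combination
`f` of the roots `y i`. -/
def RadImages : Prop :=
  ∀ (k K L : Type) [Field k] [Field K] [Field L] [Algebra k K] [Algebra k L] [Algebra L K]
    [IsScalarTower k L K] [CharZero k] [IsAlgClosed k] [FiniteDimensional L K]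
    [Algebra.EssFiniteType k K] (w r n m N : ℕ), 0 < w → 1 ≤ r → Algebra.trdeg k K = w →
    Module.finrank L K ≤ r → 2 ≤ m → 4 * n + (n + 2 * r - 1) ^ 2 < 2 * (N + 1) →
    ∀ a : Fin (N + 1) → k, Function.Injective a → ∀ H : K[X], H ≠ 0 → H.natDegree ≤ n →
      Algebra.IsAlgebraic (Algebra.adjoin k {x | ∃ i j, x = H.coeff i / H.coeff j}) K →
    ∀ y : Fin (N + 1) → K, (∀ i, y i ^ m = H.eval (algebraMap k K (a i))) →
      (∀ p : K[X], Irreducible p → ¬ p ^ m ∣ H) → ∀ i0, y i0 = 1 →
    ∀ lam : Fin (N + 1) → k, IntermediateField.adjoin L {∑ i, lam i • y i} = ⊤ →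
      GeneralType k L w

/-- Polynomials whose values are `m`-th powers: all images of degree at most `r`. -/
def Images : Prop :=
  ∀ (k K L : Type) [Field k] [Field K] [Field L] [Algebra k K] [Algebra k L] [Algebra L K]
    [IsScalarTower k L K] [CharZero k] [IsAlgClosed k] [FiniteDimensional L K]
    [Algebra.EssFiniteType k K] (w r n m N : ℕ), 0 < w → 1 ≤ r → Algebra.trdeg k K = w →
    Module.finrank L K ≤ r → 2 ≤ m → 4 * n + (n + 2 * r - 1) ^ 2 < 2 * (N + 1) →
    ∀ a : Fin (N + 1) → k, Function.Injective a → ∀ H : K[X], H ≠ 0 → H.natDegree ≤ n →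
      Algebra.IsAlgebraic (Algebra.adjoin k {x | ∃ i j, x = H.coeff i / H.coeff j}) K →
    ∀ y : Fin (N + 1) → K, (∀ i, y i ^ m = H.eval (algebraMap k K (a i))) →
      (∀ p : K[X], Irreducible p → ¬ p ^ m ∣ H) →
      GeneralType k L w

end Pool.Agent.N115.IM
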