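import Pool.Agent.N115.IM.Loc
import Pool.Agent.N115.IM.Norm
import Pool.Agent.N115.IM.Stm
import Pool.Agent.TH466.QG.Gal

/-!
Images of varieties: the images of small degree of a variety with many pluricanonical forms which
vanish along the poles of a generator are of general type.
-/

set_option autoImplicit false
set_option linter.overlappingInstances false
set_option linter.unusedSectionVars false

open FF IntermediateField Pool.Agent.W603.LV

namespace Pool.Agent.N115.IM

open Pool.Agent.TH466.QG
open Pool.Agent.W619.PQ (Inert fixed_finite exists_inertia)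
open Pool.Agent.W602.GT (IsPluri DerReg DerLog Divisorial GeneralType der_ext)

section

variable {k M : Type} [Field k] [Field M] [Algebra k M] {Γ : Subgroup (M ≃ₐ[k] M)}

theorem sum_pl [CharZero k] [Finite Γ] (Y : Finset Γ) (N : ℕ) (z : M) (w : Place k M) :
    ∑ᶠ g : Γ, ((N : ℤ) * (Y.card * pl (w.comp (g : M ≃ₐ[k] M)) z -
      ∑ τ ∈ Y, pl ((w.comp (g : M ≃ₐ[k] M)).comp ((τ : Γ) : M ≃ₐ[k] M)) z)) = 0 := by
  have hft : Fintype Γ := Fintype.ofFinite Γ
  rw [finsum_eq_sum_of_fintype, ← Finset.mul_sum, Finset.sum_sub_distrib, Finset.sum_comm,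
    ← Finset.mul_sum]
  have h1 : ∀ τ ∈ Y, ∑ g : Γ, pl ((w.comp (g : M ≃ₐ[k] M)).comp ((τ : Γ) : M ≃ₐ[k] M)) z =
      ∑ g : Γ, pl (w.comp (g : M ≃ₐ[k] M)) z := fun τ _ =>
    Fintype.sum_equiv (Equiv.mulRight τ) _ _ fun g => rfl
  rw [Finset.sum_congr rfl h1, Finset.sum_const, nsmul_eq_mul, sub_self, mul_zero]

end

/-- **Images of small degree**, when a Galois closure is given. -/
theorem image_galois {k F K M : Type} [Field k] [CharZero k] [IsAlgClosed k] [Field M] [Field F]
    [Field K] [Algebra k M] [Algebra k F] [Algebra k K] [Algebra F K] [Algebra F M] [Algebra K M]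
    [IsScalarTower k F K] [IsScalarTower k F M] [IsScalarTower k K M] [IsScalarTower F K M]
    [FiniteDimensional F M] [IsGalois F M] [FiniteDimensional F K]
    (hess : Algebra.EssFiniteType k K) (n N : ℕ) (hn0 : 0 < n) (hN : 0 < N)
    (hnK : Algebra.trdeg k K = n) (f : K) (hf : IntermediateField.adjoin F {f} = ⊤)
    (p : Place k K → ℤ) (hp : ∀ P, 0 ≤ p P ∧ Ge P (-(p P)) f)
    (ω : Fin (n + 1) → (Fin n → Derivation k K K) → K) (u : Fin n → K)
    (hu : IsTranscendenceBasis k u) (hω : ∀ j, IsPluri N (ω j)) (h0 : ∃ D, ω 0 D ≠ 0)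
    (hrat : ∀ i D, ω i.succ D = ω 0 D * u i)
    (hreg : ∀ P, Divisorial n P → ∀ j D, (∀ i, DerReg P (D i)) →
      Ge P (2 * ((Module.finrank F K : ℤ) - 1) * N * p P) (ω j D)) :
    GeneralType k F n := by
  classical
  have hfin : Finite (fixg k M F) := fixg_finite
  have hfdK : FiniteDimensional K M := FiniteDimensional.right F K M
  have hu' : IsTranscendenceBasis k (fun i => algebraMap K M (u i)) := by
    have halg : Algebra.IsAlgebraic K M := inferInstance
    exact hu.algebraMap_comp (A := M)
  have hMn : Algebra.trdeg k M = n := by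
    have := hu'.cardinalMk_eq_trdeg
    rw [← this]
    simp
  obtain ⟨e⟩ := exists_equiv (k := k) (M := M) (F := F)
  refine general_of_equiv e ?_
  set Γ := fixg k M F with hΓ
  set H := fixK k M F K with hHdef
  set z : M := algebraMap K M f with hz
  -- the elements which fix `f`
  have hgen : ∀ g : Γ, (g : M ≃ₐ[k] M) z = z →
      ∀ x : K, (g : M ≃ₐ[k] M) (algebraMap K M x) = algebraMap K M x := by
    intro g hg x
    have hx : x ∈ IntermediateField.adjoin F {f} := by
      rw [hf]
      exact IntermediateField.mem_top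
    induction hx using IntermediateField.adjoin_induction with
    | mem x hx =>
      rw [Set.mem_singleton_iff] at hx
      rw [hx]
      exact hg
    | algebraMap x =>
      rw [← IsScalarTower.algebraMap_apply F K M]
      exact g.2 x
    | add x y _ _ hx hy => rw [map_add, map_add, hx, hy]
    | inv x _ hx => rw [map_inv₀, map_inv₀, hx]
    | mul x y _ _ hx hy => rw [map_mul, map_mul, hx, hy]
  obtain ⟨Y, hYc, hYm, hY⟩ := exists_rep z H fun h hh => hh f
  have hYr : (Y.card : ℤ) ≤ (Module.finrank F K : ℤ) - 1 := by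
    have h1 : Y.card + 1 ≤ Module.finrank F K :=
      hYc.trans (index_le (k := k) (M := M) (F := F) (K := K))
    omega
  -- the dual derivations
  obtain ⟨E, hE⟩ := Pool.Agent.W602.GT.exists_dual hu
  have hE' : ∀ i j, E i (u j) = if i = j then 1 else 0 := by
    intro i j
    have h1 := congrFun (congrFun hE i) j
    rwa [Matrix.of_apply, Matrix.one_apply] at h1
  have hω0 : ω 0 E ≠ 0 := by
    obtain ⟨D, hD⟩ := h0
    intro h1
    apply hD
    have h2 := hω 0 (Matrix.of fun i j => D i (u j)) E
    have h3 : (fun i => ∑ j, (Matrix.of fun i j => D i (u j)) i j • E j) = D := by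
      funext i
      exact Pool.Agent.W73.PG.PULL.expand u hu E hE' (D i)
    rw [h3, h1, mul_zero] at h2
    exact h2
  have hΨ0 : Psi z Y ≠ 0 := Psi_ne hYm
  -- the forms
  let Ω : Fin (n + 1) → (Fin n → Derivation k M M) → M := fun c D' =>
    Psi z Y ^ N * ((Matrix.of fun a c => D' a (algebraMap K M (u c))).det ^ N *
        algebraMap K M (ω c E))
  have hΩ : ∀ c, IsPluri N (Ω c) := by
    intro c
    have h1 := Pool.Agent.W602.GT.form_pluri (k := k) (fun c => algebraMap K M (u c)) N
      (Psi z Y ^ N * algebraMap K M (ω c E))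
    have h2 : Ω c = Pool.Agent.W602.GT.form (fun c => algebraMap K M (u c)) N
      (Psi z Y ^ N * algebraMap K M (ω c E)) := by
      funext D'
      unfold Pool.Agent.W602.GT.form
      change Psi z Y ^ N * (_ * _) = _
      ring
    rw [h2]
    exact h1
  have hne : ∀ D' : Fin n → Derivation k M M, LinearIndependent M D' → Ω 0 D' ≠ 0 := by
    intro D hD h1
    have h2 : (Matrix.of fun a c => D a (algebraMap K M (u c))).det = 0 := by
      rcases mul_eq_zero.1 h1 with h | h
      · exact absurd h (pow_ne_zero _ hΨ0)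
      · rcases mul_eq_zero.1 h with h | h
        · exact pow_eq_zero_iff hN.ne' |>.1 h
        · rw [map_eq_zero] at h
          exact absurd h hω0
    obtain ⟨x, hx0, hx⟩ := Matrix.exists_vecMul_eq_zero_iff.2 h2
    apply hx0
    have h3 : ∑ i, x i • D i = 0 := by
      apply der_ext _ hu'
      intro l
      rw [Pool.Agent.W357.PG.sum_apply']
      exact congrFun hx l
    funext i
    exact Fintype.linearIndependent_iff.1 hD x h3 i
  have hcc : ∀ (i : Fin n) D', Ω i.succ D' = Ω 0 D' * algebraMap K M (u i) := by
    intro i D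
    change Psi z Y ^ N * (_ * algebraMap K M (ω i.succ E)) =
      Psi z Y ^ N * (_ * algebraMap K M (ω 0 E)) * _
    rw [hrat, map_mul]
    ring
  refine general_of_forms (Γ := Γ) hMn hn0 hN Ω hΩ 0 hne _ hu' Fin.succ hcc
    (fun w => N * (Y.card * pl w z - ∑ τ ∈ Y, pl (w.comp ((τ : Γ) : M ≃ₐ[k] M)) z))
    (fun w => ?_) fun v hv => ?_
  · exact (sum_pl Y N z w).ge
  · obtain ⟨w, e, I, hwv, hcard, hI⟩ := exists_inertia Γ v
    refine ⟨w, e, hwv, fun g c D D' hDD hD => ?_⟩
    refine local_est (I := I.map (MulAut.conj g⁻¹).toMonoidHom) hess hnK hgen hYr hY hp (hω c)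
      (fun P hP D hD => hreg P hP c D hD) hu hE' hv (over_comp hwv g) ?_ ?_ hDD hD
    · rw [Subgroup.card_map_of_injective (MulAut.conj g⁻¹).injective]
      exact hcard
    · rintro _ ⟨h, hh, rfl⟩
      exact inert_comp (hI h hh) g

/-- **Images of small degree.** -/
theorem image_lemma : ImageLemma := by
  intro k K F _ _ _ _ _ _ _ _ _ _ _ n N hn0 hN hnK f hf p hp ω u hu hω h0 hrat hreg
  have hF : CharZero F := charZero_of_injective_algebraMap (algebraMap k F).injective
  let L := AlgebraicClosure K
  have h1 : IsScalarTower F K L := inferInstance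
  have h2 : IsScalarTower k K L := inferInstance
  have h3 : IsScalarTower k F L := IsScalarTower.of_algebraMap_eq fun x => by
    rw [IsScalarTower.algebraMap_apply k K L, IsScalarTower.algebraMap_apply F K L,
      IsScalarTower.algebraMap_apply k F K]
  have hLF : Algebra.IsAlgebraic F L := by
    have : Algebra.IsAlgebraic F K := inferInstance
    have : Algebra.IsAlgebraic K L := inferInstance
    exact Algebra.IsAlgebraic.trans F K L
  have hLn : Normal F L := by
    have : IsAlgClosure F L := ⟨inferInstance, hLF⟩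
    exact IsAlgClosure.normal F L
  let M := normalClosure F K L
  have hMn : Normal F M := inferInstance
  have hMf : FiniteDimensional F M := inferInstance
  have hMg : IsGalois F M := ⟨⟩
  have h4 : IsScalarTower k F M := inferInstance
  have h5 : IsScalarTower F K M := inferInstance
  have h6 : IsScalarTower k K M := IsScalarTower.of_algebraMap_eq fun x => by
    rw [IsScalarTower.algebraMap_apply k F M, IsScalarTower.algebraMap_apply F K M,
      IsScalarTower.algebraMap_apply k F K]
  exact image_galois (M := M) inferInstance n N hn0 hN hnK f hf p hp ω u hu hω h0 hrat hreg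

end Pool.Agent.N115.IM
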