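import Pool.Agent.TH466.QG.Gen
import Pool.Agent.Y174.B5

/-!
Images of varieties: the local estimate at the prime divisors of the Galois closure.
-/

set_option autoImplicit false
set_option linter.overlappingInstances false
set_option linter.unusedSectionVars false

open FF IntermediateField Pool.Agent.W603.LV

namespace Pool.Agent.N115.IM

open Pool.Agent.TH466.QG
open Pool.Agent.W619.PQ (Inert fixed_finite)
open Pool.Agent.W602.GT (IsPluri DerReg DerLog Divisorial)

variable {k M : Type} [Field k] [CharZero k] [Field M] [Algebra k M]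
  {Γ : Subgroup (M ≃ₐ[k] M)} {n : ℕ}

/-- the order of the pole of `z` -/
noncomputable def pl (w : Place k M) (z : M) : ℤ := max 0 (-w.ord z)

theorem pl_nonneg (w : Place k M) (z : M) : 0 ≤ pl w z := le_max_left _ _

theorem ge_pl (w : Place k M) (z : M) : Ge w (-(pl w z)) z := by
  right
  have := le_max_right (0 : ℤ) (-w.ord z)
  unfold pl
  omega

/-- the difference of an element and of its conjugate -/
theorem ge_diff [Finite Γ] {w : Place k M} {I J : Subgroup Γ}
    (hI : ∀ g ∈ I, Inert w (g : M ≃ₐ[k] M)) {z : M}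
    (hJ : ∀ g, g ∈ J ↔ g ∈ I ∧ (g : M ≃ₐ[k] M) z = z) (τ : Γ) :
    Ge w ((gn I J z τ : ℤ) - pl w z - pl (w.comp (τ : M ≃ₐ[k] M)) z)
      (z - (τ : M ≃ₐ[k] M) z) := by
  classical
  by_cases hg : ∃ g ∈ I, (τ : M ≃ₐ[k] M) z = (g : M ≃ₐ[k] M) z
  · have hgn : gn I J z τ = Nat.card J := if_pos hg
    obtain ⟨g, hgI, hgz⟩ := hg
    rw [hgn]
    have hpe : pl (w.comp (τ : M ≃ₐ[k] M)) z = pl w z := by
      unfold pl
      rw [Place.comp_ord, hgz, (hI g hgI).ord_eq]
    rw [hpe]
    by_cases hz : w.ord z < 0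
    · have hpz : pl w z = - w.ord z := max_eq_right (by omega)
      have hz0 : z ≠ 0 := by
        rintro rfl
        rw [w.ord_zero] at hz
        omega
      have h1 := dvd_of_fixed (fun g hg => hI g ((hJ g).1 hg).1) hz0
        (fun g hg => ((hJ g).1 hg).2)
      have h2 : (Nat.card J : ℤ) ≤ - w.ord z := Int.le_of_dvd (by omega) (by rwa [dvd_neg])
      have h3 : Ge w (w.ord z) z := Or.inr le_rfl
      have h4 : Ge w (w.ord z) ((τ : M ≃ₐ[k] M) z) := by
        right
        rw [hgz, (hI g hgI).ord_eq]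
      refine (h3.sub h4).mono ?_
      rw [hpz]
      omega
    · have hpz : pl w z = 0 := max_eq_left (by omega)
      rw [hpz, hgz]
      have h1 := ge_gain hI (fun g hg => ((hJ g).1 hg).1) (z := z) (Or.inr (by omega))
        (fun j hj => ((hJ j).1 hj).2) hgI
      simpa using h1
  · have hgn : gn I J z τ = 0 := if_neg hg
    rw [hgn]
    have h1 := pl_nonneg w z
    have h2 := pl_nonneg (w.comp (τ : M ≃ₐ[k] M)) z
    have h3 : Ge w (-(pl (w.comp (τ : M ≃ₐ[k] M)) z)) ((τ : M ≃ₐ[k] M) z) :=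
      ge_pl w ((τ : M ≃ₐ[k] M) z)
    push_cast
    exact ((ge_pl w z).mono (by omega)).sub (h3.mono (by omega))

/-- the product of the differences -/
noncomputable def Psi (f : M) (Y : Finset Γ) : M := ∏ τ ∈ Y, (f - (τ : M ≃ₐ[k] M) f)

theorem Psi_ne {f : M} {Y : Finset Γ} (hY : ∀ τ ∈ Y, (τ : M ≃ₐ[k] M) f ≠ f) : Psi f Y ≠ 0 := by
  unfold Psi
  rw [Finset.prod_ne_zero_iff]
  intro τ hτ h
  exact hY τ hτ (sub_eq_zero.1 h).symm

/-- the determinant of the values of logarithmic vector fields -/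
theorem ge_det_log {K : Type} [Field K] [Algebra k K] [Algebra K M] [IsScalarTower k K M]
    {w : Place k M} {P : Place k K} {e : ℕ} (hwP : Over w P e) (y : Fin n → K) (i0 : Fin n)
    (ht : P.ord (y i0) = 1) (hy : ∀ i, P.Reg (y i)) (D : Fin n → Derivation k M M)
    (hD : ∀ i, DerLog w (D i)) :
    Ge w e (Matrix.of fun a c => D a (algebraMap K M (y c))).det := by
  classical
  have h1 : ∀ a c, Ge w (if c = i0 then (e : ℤ) else 0) (D a (algebraMap K M (y c))) := by
    intro a c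
    by_cases h0 : algebraMap K M (y c) = 0
    · rw [h0, map_zero]
      exact Ge.zero
    have h2 : Ge w 0 (D a (algebraMap K M (y c)) / algebraMap K M (y c)) := hD a _
    have h3 : Ge w (if c = i0 then (e : ℤ) else 0) (algebraMap K M (y c)) := by
      split_ifs with h
      · right
        rw [h, hwP.2, ht, mul_one]
      · exact hwP.reg.2 (hy c)
    have h4 := h2.mul h3
    rwa [div_mul_cancel₀ _ h0, zero_add] at h4
  refine Pool.Agent.W603.LV.ge_det w _ _ _ (fun a c => h1 a c) fun σ => ?_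
  rw [Finset.sum_ite_eq' Finset.univ i0]
  simp

/-- **The local estimate.** -/
theorem local_est {K : Type} [Field K] [Algebra k K] [Algebra K M] [IsScalarTower k K M]
    [Finite Γ] [FiniteDimensional K M] (hess : Algebra.EssFiniteType k K)
    (hnK : Algebra.trdeg k K = n)
    {f : K} (hgen : ∀ g : Γ, (g : M ≃ₐ[k] M) (algebraMap K M f) = algebraMap K M f →
      ∀ x : K, (g : M ≃ₐ[k] M) (algebraMap K M x) = algebraMap K M x)
    {Y : Finset Γ} {r : ℤ} (hYr : (Y.card : ℤ) ≤ r)
    (hY : ∀ g : Γ, (g : M ≃ₐ[k] M) (algebraMap K M f) ≠ algebraMap K M f →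
      ∃ τ ∈ Y, (τ : M ≃ₐ[k] M) (algebraMap K M f) = (g : M ≃ₐ[k] M) (algebraMap K M f))
    {p : Place k K → ℤ} (hp : ∀ P, 0 ≤ p P ∧ Ge P (-(p P)) f) {N : ℕ}
    {ω : (Fin n → Derivation k K K) → K} (hω : IsPluri N ω)
    (hreg : ∀ P, Divisorial n P → ∀ D, (∀ i, DerReg P (D i)) → Ge P (2 * r * N * p P) (ω D))
    {u : Fin n → K} (hu : IsTranscendenceBasis k u) {E : Fin n → Derivation k K K}
    (hE : ∀ i j, E i (u j) = if i = j then 1 else 0)
    {v : Place k (fixedField Γ)} (hv : Divisorial n v)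
    {w : Place k M} {e : ℕ} {I : Subgroup Γ} (hwv : Over w v e)
    (hcard : Nat.card I = e) (hI : ∀ g ∈ I, Inert w (g : M ≃ₐ[k] M))
    {D : Fin n → Derivation k (fixedField Γ) (fixedField Γ)} {D' : Fin n → Derivation k M M}
    (hDD : ∀ i, Ext (D i) (D' i)) (hD : ∀ i, DerReg v (D i)) :
    Ge w (N * (Y.card * pl w (algebraMap K M f) -
        ∑ τ ∈ Y, pl (w.comp ((τ : Γ) : M ≃ₐ[k] M)) (algebraMap K M f)))
      (Psi (algebraMap K M f) Y ^ N * ((Matrix.of fun a c => D' a (algebraMap K M (u c))).det ^ N *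
        algebraMap K M (ω E))) := by
  classical
  have hfd : FiniteDimensional (fixedField Γ) M := fixed_finite Γ
  set z : M := algebraMap K M f with hz
  -- the stabilizer
  let J : Subgroup Γ :=
    { carrier := {g | g ∈ I ∧ (g : M ≃ₐ[k] M) z = z}
      mul_mem' := by
        rintro x y ⟨hx, hx'⟩ ⟨hy, hy'⟩
        refine ⟨I.mul_mem hx hy, ?_⟩
        change (x : M ≃ₐ[k] M) ((y : M ≃ₐ[k] M) z) = z
        rw [hy', hx']
      one_mem' := ⟨I.one_mem, rfl⟩
      inv_mem' := by
        rintro x ⟨hx, hx'⟩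
        refine ⟨I.inv_mem hx, ?_⟩
        conv_lhs => rw [← hx']
        change ((x⁻¹ * x : Γ) : M ≃ₐ[k] M) z = z
        rw [inv_mul_cancel]
        rfl }
  have hJ : ∀ g, g ∈ J ↔ g ∈ I ∧ (g : M ≃ₐ[k] M) z = z := fun g => Iff.rfl
  -- the place below
  obtain ⟨e1, P, hwP⟩ := Pool.Agent.W73.PG.PULL.exists_over' (K := K) w
  have hwd : Pool.Agent.W619.PQ.IsDivisorial w n := Pool.Agent.Y174.divisorial_up hwv hv
  have hPd : Pool.Agent.W619.PQ.IsDivisorial P n := Pool.Agent.Y174.pDIVI k K M n P w e1 hwP hwd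
  obtain ⟨y, G, i0, hy, hG, ht, hyr, hpres⟩ := Pool.Agent.Y174.pFRAME k K n hnK
    (fun y hy => Pool.Agent.W824.PG.fin_adj hess y hy) P hPd
  have hωG : Ge P (2 * r * N * p P) (ω G) := hreg P hPd G fun i => hpres i
  have hωG' : Ge w (e1 * (2 * r * N * p P)) (algebraMap K M (ω G)) := by
    rcases hωG with h | h
    · left
      rw [h, map_zero]
    · right
      rw [hwP.2]
      exact mul_le_mul_of_nonneg_left h (by positivity)
  -- the order of the stabilizer
  have hy0 : algebraMap K M (y i0) ≠ 0 := by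
    rw [Ne, map_eq_zero]
    intro h0
    rw [h0, P.ord_zero] at ht
    exact zero_ne_one ht
  have hJe : (Nat.card J : ℤ) ≤ e1 := by
    have h1 := dvd_of_fixed (fun g hg => hI g ((hJ g).1 hg).1) hy0
      (fun g hg => hgen g ((hJ g).1 hg).2 (y i0))
    rw [hwP.2, ht, mul_one] at h1
    exact Int.le_of_dvd (by exact_mod_cast hwP.1) h1
  have hcnt := count hJ hY
  rw [hcard] at hcnt
  -- the discriminant
  have hΨ : Ge w (∑ τ ∈ Y, ((gn I J z τ : ℤ) - pl w z - pl (w.comp (τ : M ≃ₐ[k] M)) z))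
      (Psi z Y) := Ge.prod (P := w) Y _ _ fun τ _ => ge_diff hI hJ τ
  -- the form
  let Ω : (Fin n → Derivation k M M) → M := fun D' =>
    Psi z Y ^ N * ((Matrix.of fun a c => D' a (algebraMap K M (u c))).det ^ N *
        algebraMap K M (ω E))
  have hΩ : IsPluri N Ω := by
    have h1 := Pool.Agent.W602.GT.form_pluri (k := k) (fun c => algebraMap K M (u c)) N
      (Psi z Y ^ N * algebraMap K M (ω E))
    have h2 : Ω = Pool.Agent.W602.GT.form (fun c => algebraMap K M (u c)) N
      (Psi z Y ^ N * algebraMap K M (ω E)) := by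
      funext D'
      unfold Pool.Agent.W602.GT.form
      ring
    rw [h2]
    exact h1
  have hpiv := pivot hwv hΩ (b := N * (∑ τ ∈ Y, ((gn I J z τ : ℤ) - pl w z -
      pl (w.comp (τ : M ≃ₐ[k] M)) z)) + (N * e1 + e1 * (2 * r * N * p P)))
    (fun D1 D1' hE1 hlog => by
      change Ge w _ (Psi z Y ^ N * ((Matrix.of fun a c => D1' a (algebraMap K M (u c))).det ^ N *
        algebraMap K M (ω E)))
      rw [Pool.Agent.W73.PG.PULL.form_eq u y hu hy E G hE hG ω hω D1']
      refine Ge.mul ?_ (Ge.mul ?_ hωG')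
      · have h1 := hΨ.pow N
        exact h1
      · have h1 := (ge_det_log hwP y i0 ht hyr D1' fun l => log_ext hwv (hE1 l) (hlog l)).pow N
        exact h1) hDD hD
  refine hpiv.mono ?_
  -- the inequality
  have h1 : pl w z ≤ e1 * p P := by
    unfold pl
    refine max_le (mul_nonneg (by positivity) (hp P).1) ?_
    rw [hz, hwP.2]
    have h2 : -(p P) ≤ P.ord f := by
      rcases (hp P).2 with h | h
      · rw [h, P.ord_zero]
        linarith [(hp P).1]
      · exact h
    have h3 : (0 : ℤ) ≤ e1 := by positivity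
    nlinarith
  rw [Finset.sum_sub_distrib, Finset.sum_sub_distrib, Finset.sum_const, nsmul_eq_mul]
  have h2 : (e : ℤ) ≤ e1 + ∑ τ ∈ Y, (gn I J z τ : ℤ) := by
    have h3 : (e : ℤ) ≤ (Nat.card J : ℤ) + ∑ τ ∈ Y, (gn I J z τ : ℤ) := by exact_mod_cast hcnt
    linarith
  have h3 : (Y.card : ℤ) * pl w z ≤ r * (e1 * p P) := by
    have h4 := pl_nonneg w z
    have h5 : (0 : ℤ) ≤ e1 * p P := h4.trans h1
    have h6 : (0 : ℤ) ≤ Y.card := by positivity
    calc (Y.card : ℤ) * pl w z ≤ Y.card * (e1 * p P) := mul_le_mul_of_nonneg_left h1 h6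
      _ ≤ r * (e1 * p P) := mul_le_mul_of_nonneg_right hYr h5
  have hN : (0 : ℤ) ≤ N := by positivity
  have h4 := mul_le_mul_of_nonneg_left h2 hN
  have h5 := mul_le_mul_of_nonneg_left h3 hN
  nlinarith

end Pool.Agent.N115.IM
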